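import Pool.Agent.Helper15.An.Graph

/-! Packet E5 of MP_75608d_al: from `k₀` random elements to any larger number (Markov). -/

set_option linter.unusedSectionVars false

namespace Pool.Agent.Helper88.E

open Matrix Equiv Pool.Agent.Helper15.An
open scoped ComplexOrder

/-- fibres of a coordinate projection -/
theorem card_fibre {A : Type} [Fintype A] {k₀ k : ℕ} (ι : Fin k₀ → Fin k)
    (hι : Function.Injective ι) (P : (Fin k₀ → A) → Prop) :
    ∃ κ : ℕ, Fintype.card A ^ k = Fintype.card A ^ k₀ * κ ∧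
      Nat.card {z : Fin k → A // P (z ∘ ι)} = Nat.card {y : Fin k₀ → A // P y} * κ := by
  classical
  let e : Fin k₀ ⊕ ↥((Set.range ι)ᶜ) ≃ Fin k :=
    (Equiv.sumCongr (Equiv.ofInjective ι hι) (Equiv.refl _)).trans
      (Equiv.Set.sumCompl (Set.range ι))
  have he : ∀ j, e (Sum.inl j) = ι j := fun j => by simp [e]
  let E : (Fin k → A) ≃ (Fin k₀ → A) × (↥((Set.range ι)ᶜ) → A) :=
    (Equiv.arrowCongr e.symm (Equiv.refl A)).trans (Equiv.sumArrowEquivProdArrow _ _ _)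
  have hE : ∀ z, (E z).1 = z ∘ ι := by
    intro z
    funext j
    simp [E, he]
  refine ⟨Nat.card (↥((Set.range ι)ᶜ) → A), ?_, ?_⟩
  · have h1 := Nat.card_congr E
    rw [Nat.card_prod, Nat.card_eq_fintype_card, Nat.card_eq_fintype_card (α := Fin k₀ → A),
      Fintype.card_fun, Fintype.card_fun, Fintype.card_fin, Fintype.card_fin] at h1
    exact h1
  · have h1 : {z : Fin k → A // P (z ∘ ι)} ≃
        {p : (Fin k₀ → A) × (↥((Set.range ι)ᶜ) → A) // P p.1} :=
      E.subtypeEquiv (fun z => by rw [hE])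
    rw [Nat.card_congr h1, Nat.card_congr Equiv.prodSubtypeFstEquivSubtypeProd, Nat.card_prod]

/-- Markov inequality for counting. -/
theorem markov_count {Z : Type} [Fintype Z] {B : ℕ} (hB : 0 < B) (bad : Z → Fin B → Prop)
    (M : ℝ) (h : ∀ b, (Nat.card {z : Z // bad z b} : ℝ) ≤ M) :
    (Nat.card {z : Z // B ≤ 2 * Nat.card {b : Fin B // bad z b}} : ℝ) ≤ 2 * M := by
  classical
  have hN : ∀ z, (Nat.card {b : Fin B // bad z b} : ℝ) =
      ∑ b : Fin B, if bad z b then (1 : ℝ) else 0 := by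
    intro z
    rw [Nat.card_eq_fintype_card, Fintype.card_subtype, Finset.card_filter]
    push_cast
    rfl
  have hM : ∀ b, (Nat.card {z : Z // bad z b} : ℝ) =
      ∑ z : Z, if bad z b then (1 : ℝ) else 0 := by
    intro b
    rw [Nat.card_eq_fintype_card, Fintype.card_subtype, Finset.card_filter]
    push_cast
    rfl
  have hS : (Nat.card {z : Z // B ≤ 2 * Nat.card {b : Fin B // bad z b}} : ℝ) =
      ∑ z : Z, if B ≤ 2 * Nat.card {b : Fin B // bad z b} then (1 : ℝ) else 0 := by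
    rw [Nat.card_eq_fintype_card, Fintype.card_subtype, Finset.card_filter]
    push_cast
    rfl
  have h1 : ∑ z : Z, (Nat.card {b : Fin B // bad z b} : ℝ) ≤ B * M := by
    simp_rw [hN]
    rw [Finset.sum_comm]
    have h2 : ∑ b : Fin B, ∑ z : Z, (if bad z b then (1 : ℝ) else 0) ≤ ∑ _b : Fin B, M := by
      refine Finset.sum_le_sum fun b _ => ?_
      rw [← hM]
      exact h b
    rw [Finset.sum_const, Finset.card_univ, Fintype.card_fin, nsmul_eq_mul] at h2
    exact h2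
  have hB' : (0 : ℝ) < B := by exact_mod_cast hB
  have h3 : (B : ℝ) * (Nat.card {z : Z // B ≤ 2 * Nat.card {b : Fin B // bad z b}} : ℝ) ≤
      ∑ z : Z, 2 * (Nat.card {b : Fin B // bad z b} : ℝ) := by
    rw [hS, Finset.mul_sum]
    refine Finset.sum_le_sum fun z _ => ?_
    split_ifs with h4
    · rw [mul_one]
      exact_mod_cast h4
    · rw [mul_zero]
      positivity
  rw [← Finset.mul_sum] at h3
  have h5 : (B : ℝ) * (Nat.card {z : Z // B ≤ 2 * Nat.card {b : Fin B // bad z b}} : ℝ) ≤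
      B * (2 * M) := by linarith
  exact le_of_mul_le_mul_left h5 hB'

/-- If more than half of the blocks are good, the whole tuple is good. -/
theorem good_of_blocks {n : ℕ} (F : PW (Perm (Fin n))) {k₀ k B : ℕ} (hk₀ : 0 < k₀)
    (hk : 0 < k) (hB : k ≤ 2 * (k₀ * B)) (p : ℕ) (ε : ℝ) (hε : 0 ≤ ε)
    (idx : Fin B → Fin k₀ → Fin k)
    (hidx : Function.Injective (fun q : Fin B × Fin k₀ => idx q.1 q.2))
    (z : Fin k → Alt n)
    (h : ¬ B ≤ 2 * Nat.card {b : Fin B // ¬ Good F (tupW (z ∘ idx b)) p ε}) :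
    Good F (tupW z) p (ε / 4) := by
  classical
  intro i ht hf
  have hu := (F.irr i).unit
  have hH : ((1 - ε / 4) • (1 : Matrix (Fin (F.D i)) (Fin (F.D i)) ℂ) -
      wop (F.ρ i) (tupW z)).IsHermitian := by
    unfold Matrix.IsHermitian
    rw [conjTranspose_sub, conjTranspose_smul, (wop_isHermitian (F.ρ i) hu (tupW_isSP hk z)).eq,
      conjTranspose_one]
    simp
  refine posSemidef_of_qf hH fun v => ?_
  rw [qf_sub, qf_smul, qf_one, wop_tupW (F.ρ i) hu]
  have hq := qf_avgRe hk (fun l => F.ρ i (z l : Perm (Fin n))) v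
  set Q := qf (avgRe fun l => F.ρ i (z l : Perm (Fin n))) v with hQ
  set N := nrm2 v with hN
  have hN0 : 0 ≤ N := nrm2_nonneg v
  set f : Fin k → ℝ := fun l => N - qf (F.ρ i (z l : Perm (Fin n))) v with hf'
  have hf0 : ∀ l, 0 ≤ f l := by
    intro l
    have h1 := nrm2_sub_unitary (hu (z l : Perm (Fin n))) v
    have h2 := nrm2_nonneg (F.ρ i (z l : Perm (Fin n)) *ᵥ v - v)
    rw [hf']
    simp only
    linarith
  have hsum : ∑ l, f l = k * (N - Q) := by
    rw [hf', Finset.sum_sub_distrib, ← hq, Finset.sum_const, Finset.card_univ, Fintype.card_fin,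
      nsmul_eq_mul]
    ring
  set G : Finset (Fin B) := Finset.univ.filter (fun b => Good F (tupW (z ∘ idx b)) p ε) with hG
  have hGc : (B : ℝ) / 2 ≤ (G.card : ℝ) := by
    have h1 : G.card + Nat.card {b : Fin B // ¬ Good F (tupW (z ∘ idx b)) p ε} = B := by
      rw [Nat.card_eq_fintype_card, Fintype.card_subtype, hG,
        Finset.card_filter_add_card_filter_not]
      simp
    have h2 : B ≤ 2 * G.card := by omega
    have h3 : (B : ℝ) ≤ 2 * (G.card : ℝ) := by exact_mod_cast h2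
    linarith
  have hblock : ∀ b ∈ G, (k₀ : ℝ) * (ε * N) ≤ ∑ j, f (idx b j) := by
    intro b hb
    have h1 := (Finset.mem_filter.1 hb).2 i ht hf
    have h2 := qf_nonneg h1 v
    rw [qf_sub, qf_smul, qf_one, wop_tupW (F.ρ i) hu] at h2
    have h3 := qf_avgRe hk₀ (fun l => F.ρ i ((z ∘ idx b) l : Perm (Fin n))) v
    have h4 : ∑ j, f (idx b j) = (k₀ : ℝ) * N -
        ∑ j, qf (F.ρ i ((z ∘ idx b) j : Perm (Fin n))) v := by
      rw [hf']
      simp only [Function.comp]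
      rw [Finset.sum_sub_distrib, Finset.sum_const, Finset.card_univ, Fintype.card_fin,
        nsmul_eq_mul]
    rw [h4, ← h3]
    have h5 : (0 : ℝ) ≤ k₀ := Nat.cast_nonneg _
    have h6 := mul_nonneg h5 h2
    have h7 : (k₀ : ℝ) * ((1 - ε) * N - qf (avgRe fun l =>
        F.ρ i ((z ∘ idx b) l : Perm (Fin n))) v) = (k₀ : ℝ) * N - (k₀ : ℝ) * (ε * N) -
        (k₀ : ℝ) * qf (avgRe fun l => F.ρ i ((z ∘ idx b) l : Perm (Fin n))) v := by ring
    rw [hN] at h7
    rw [h7] at h6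
    linarith
  have hall : ∑ b ∈ G, ∑ j, f (idx b j) ≤ ∑ l, f l := by
    rw [← Finset.sum_product']
    rw [← Finset.sum_image (f := f) (g := fun q : Fin B × Fin k₀ => idx q.1 q.2)
      (hidx.injOn)]
    exact Finset.sum_le_sum_of_subset_of_nonneg (Finset.subset_univ _) fun l _ _ => hf0 l
  have h1 : (G.card : ℝ) * ((k₀ : ℝ) * (ε * N)) ≤ ∑ b ∈ G, ∑ j, f (idx b j) := by
    rw [← nsmul_eq_mul]
    exact Finset.card_nsmul_le_sum _ _ _ hblock
  rw [hsum] at hall
  have hk' : (0 : ℝ) < k := by exact_mod_cast hk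
  have hεN : 0 ≤ ε * N := mul_nonneg hε hN0
  have h2 : (k : ℝ) ≤ 2 * ((k₀ : ℝ) * B) := by exact_mod_cast hB
  have h3 : (k : ℝ) * (ε / 4 * N) ≤ (G.card : ℝ) * ((k₀ : ℝ) * (ε * N)) := by
    have h4 : (k : ℝ) / 4 ≤ (G.card : ℝ) * (k₀ : ℝ) := by
      have h5 : (B : ℝ) / 2 * (k₀ : ℝ) ≤ (G.card : ℝ) * (k₀ : ℝ) :=
        mul_le_mul_of_nonneg_right hGc (Nat.cast_nonneg _)
      linarith
    have h6 := mul_le_mul_of_nonneg_right h4 hεN
    linarith
  have h7 : (k : ℝ) * (ε / 4 * N) ≤ k * (N - Q) := by linarith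
  have h8 := le_of_mul_le_mul_left h7 hk'
  linarith

theorem block_markov {n : ℕ} (F : PW (Perm (Fin n))) (k₀ k : ℕ) (hk₀ : 0 < k₀) (hk : k₀ ≤ k)
    (p : ℕ) (ε q : ℝ) (hε : 0 ≤ ε)
    (h : (Nat.card {z : Fin k₀ → Alt n // ¬ Good F (tupW z) p ε} : ℝ) ≤
      (Fintype.card (Alt n) : ℝ) ^ k₀ * q) :
    (Nat.card {z : Fin k → Alt n // ¬ Good F (tupW z) p (ε / 4)} : ℝ) ≤
      (Fintype.card (Alt n) : ℝ) ^ k * (2 * q) := by
  classical
  set B := k / k₀ with hB
  have hB0 : 0 < B := Nat.div_pos hk hk₀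
  have hmul : k₀ * B ≤ k := Nat.mul_div_le k k₀
  have hlt : k < k₀ * B + k₀ := by
    have h1 := Nat.div_add_mod k k₀
    have h2 := Nat.mod_lt k hk₀
    rw [← hB] at h1
    omega
  have hidx0 : ∀ (b : Fin B) (j : Fin k₀), (b : ℕ) * k₀ + j < k := by
    intro b j
    have h1 : ((b : ℕ) + 1) * k₀ ≤ B * k₀ := Nat.mul_le_mul_right _ b.2
    have h2 := j.2
    have h3 : B * k₀ = k₀ * B := mul_comm _ _
    have h4 : ((b : ℕ) + 1) * k₀ = (b : ℕ) * k₀ + k₀ := by ring
    omega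
  let idx : Fin B → Fin k₀ → Fin k := fun b j => ⟨(b : ℕ) * k₀ + j, hidx0 b j⟩
  have hidx : Function.Injective (fun q : Fin B × Fin k₀ => idx q.1 q.2) := by
    rintro ⟨b, j⟩ ⟨b', j'⟩ he
    have he' : (b : ℕ) * k₀ + j = (b' : ℕ) * k₀ + j' := congrArg Fin.val he
    have hd : ((b : ℕ) * k₀ + j) / k₀ = ((b' : ℕ) * k₀ + j') / k₀ := by rw [he']
    have hm : ((b : ℕ) * k₀ + j) % k₀ = ((b' : ℕ) * k₀ + j') % k₀ := by rw [he']
    rw [mul_comm, Nat.mul_add_div hk₀, Nat.div_eq_of_lt j.2, mul_comm (b' : ℕ),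
      Nat.mul_add_div hk₀, Nat.div_eq_of_lt j'.2] at hd
    rw [mul_comm, Nat.mul_add_mod, Nat.mod_eq_of_lt j.2, mul_comm (b' : ℕ),
      Nat.mul_add_mod, Nat.mod_eq_of_lt j'.2] at hm
    exact Prod.ext (Fin.ext (by simpa using hd)) (Fin.ext hm)
  have hinj : ∀ b, Function.Injective (idx b) := by
    intro b j j' he
    have := @hidx (b, j) (b, j') he
    exact (Prod.ext_iff.1 this).2
  have hk0 : 0 < k := lt_of_lt_of_le hk₀ hk
  have hbad : ∀ b : Fin B, (Nat.card {z : Fin k → Alt n //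
      ¬ Good F (tupW (z ∘ idx b)) p ε} : ℝ) ≤ (Fintype.card (Alt n) : ℝ) ^ k * q := by
    intro b
    obtain ⟨κ, h1, h2⟩ := card_fibre (A := Alt n) (idx b) (hinj b)
      (fun y => ¬ Good F (tupW y) p ε)
    rw [h2]
    have h3 : (Fintype.card (Alt n) : ℝ) ^ k = (Fintype.card (Alt n) : ℝ) ^ k₀ * κ := by
      exact_mod_cast h1
    rw [h3]
    push_cast
    have h4 := mul_le_mul_of_nonneg_right h (Nat.cast_nonneg κ)
    linarith
  have hmar := markov_count hB0 (fun (z : Fin k → Alt n) b =>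
    ¬ Good F (tupW (z ∘ idx b)) p ε) _ hbad
  have hsub : (Nat.card {z : Fin k → Alt n // ¬ Good F (tupW z) p (ε / 4)} : ℝ) ≤
      (Nat.card {z : Fin k → Alt n // B ≤ 2 * Nat.card {b : Fin B //
        ¬ Good F (tupW (z ∘ idx b)) p ε}} : ℝ) := by
    norm_cast
    rw [Nat.card_eq_fintype_card, Nat.card_eq_fintype_card]
    apply Fintype.card_subtype_mono
    intro z hz
    by_contra hc
    exact hz (good_of_blocks F hk₀ hk0 (by
      have : k₀ ≤ k₀ * B := Nat.le_mul_of_pos_right _ hB0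
      omega) p ε hε idx hidx z hc)
  linarith

end Pool.Agent.Helper88.E
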