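import Pool.Agent.Helper15.An.Fam

/-! Packet E1a of MP_75608d_al: the number of irreducible representations is at most the number
of conjugacy classes. -/

set_option linter.unusedSectionVars false

namespace Pool.Agent.Helper88.E

open Matrix Equiv Pool.Agent.Helper15.An
open scoped ComplexOrder

theorem sum_trace_mul_inv {G : Type} [Group G] [Fintype G] [DecidableEq G] {D : ℕ}
    {ρ : G →* Matrix (Fin D) (Fin D) ℂ} (hρ : IsIrr ρ) :
    ∑ g : G, trace (ρ g) * trace (ρ g⁻¹) = (Fintype.card G : ℂ) := by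
  have hD : (D : ℂ) ≠ 0 := by exact_mod_cast hρ.pos.ne'
  have h1 : ∀ a b : Fin D, ∑ g : G, ρ g a a * (ρ g)ᴴ b b =
      if a = b then (Fintype.card G : ℂ) / D else 0 := by
    intro a b
    have h := congrFun (congrFun (hρ.schur (Matrix.single a b 1)) a) b
    rw [Matrix.sum_apply] at h
    have h2 : ∀ g : G, (ρ g * Matrix.single a b (1 : ℂ) * (ρ g)ᴴ) a b =
        ρ g a a * (ρ g)ᴴ b b := by
      intro g
      rw [Matrix.mul_apply]
      simp [Matrix.mul_apply, Matrix.single_apply, ite_and]
    simp_rw [h2] at h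
    rw [h, Matrix.smul_apply, Matrix.one_apply]
    by_cases hab : a = b
    · subst hab
      simp
    · simp [hab]
  have h3 : ∀ g : G, trace (ρ g) * trace (ρ g⁻¹) = ∑ a, ∑ b, ρ g a a * (ρ g)ᴴ b b := by
    intro g
    rw [← rho_conj ρ hρ.unit g, Matrix.trace, Matrix.trace, Finset.sum_mul_sum]
    rfl
  simp_rw [h3]
  rw [Finset.sum_comm]
  have h4 : ∀ a : Fin D, ∑ g : G, ∑ b, ρ g a a * (ρ g)ᴴ b b = (Fintype.card G : ℂ) / D := by
    intro a
    rw [Finset.sum_comm]
    simp_rw [h1]
    simp
  simp_rw [h4]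
  rw [Finset.sum_const, Finset.card_univ, Fintype.card_fin, nsmul_eq_mul]
  field_simp

theorem irr_le_conj {G : Type} [Group G] [Fintype G] [DecidableEq G] (F : PW G) :
    F.c ≤ Nat.card (ConjClasses G) := by
  classical
  have h1 : ∑ g : G, ∑ i, trace (F.ρ i g) * trace (F.ρ i g⁻¹) =
      (F.c : ℂ) * (Fintype.card G : ℂ) := by
    rw [Finset.sum_comm]
    simp_rw [sum_trace_mul_inv (F.irr _)]
    rw [Finset.sum_const, Finset.card_univ, Fintype.card_fin, nsmul_eq_mul]
  simp_rw [F.col] at h1
  have h2 : ∑ g : G, (Finset.univ.filter (fun x : G => g * x * g⁻¹ = x)).card =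
      Nat.card {p : G × G // Commute p.1 p.2} := by
    rw [Nat.card_eq_fintype_card, Fintype.card_subtype, Finset.card_filter,
      Fintype.sum_prod_type]
    refine Finset.sum_congr rfl fun g _ => ?_
    rw [Finset.card_filter]
    refine Finset.sum_congr rfl fun x _ => ?_
    have : (g * x * g⁻¹ = x) ↔ Commute g x := by
      rw [mul_inv_eq_iff_eq_mul]
      rfl
    simp only [this]
  have h3 := card_comm_eq_card_conjClasses_mul_card G
  rw [← h2, Nat.card_eq_fintype_card (α := G)] at h3
  have h4 : F.c * Fintype.card G = Nat.card (ConjClasses G) * Fintype.card G := by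
    rw [← h3]
    exact_mod_cast h1.symm
  exact le_of_eq (Nat.eq_of_mul_eq_mul_right Fintype.card_pos h4)

end Pool.Agent.Helper88.E
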